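import Mathlib
import Pool.Agent.TH69.OgC
import Pool.Agent.H32BU.All

set_option autoImplicit false

/-!
# Groups whose three-generator subgroups are finite and soluble: bounds for the height

The lower Fitting series `DD` of the finite soluble groups of exponent dividing `n` has bounded
length if `n` is not divisible by `2 ^ μ * q` for a Mersenne prime `q = 2 ^ μ - 1`, e.g. if `4 ∤ n`.
-/

namespace Pool.Agent.Q133.BT

open Pool.Agent.H32BU Pool.Agent.W629 Pool.Agent.TH69.Od Pool.Agent.TH69.Og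

/-- `n` is not divisible by `2 ^ μ * q`, `μ ≥ 2`, if `2 ^ μ - 1` is a power of the prime `q` -/
def NonEx (n : ℕ) : Prop := ∀ q μ r : ℕ, q.Prime → q ∣ n → 2 ≤ μ → 2 ^ μ ∣ n →
  1 ≤ r → q ^ r ≠ 2 ^ μ - 1

theorem NonEx.of_dvd {n m : ℕ} (h : NonEx n) (hm : m ∣ n) : NonEx m :=
  fun q μ r hq hqm hμ hpm hr => h q μ r hq (hqm.trans hm) hμ (hpm.trans hm) hr

theorem nonEx_of_not_four {n : ℕ} (hn : ¬ 4 ∣ n) : NonEx n := by
  intro q μ r hq hqn hμ hpn hr h
  exact hn ((pow_dvd_pow 2 hμ).trans hpn)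

/-- the choice of a nonexceptional prime -/
theorem NonEx.choose {n : ℕ} (h : NonEx n) (hn : n ≠ 1) : ∃ p : ℕ, p.Prime ∧ p ∣ n ∧
    ∀ q : ℕ, q.Prime → q ∣ n → ∀ μ, 1 ≤ μ → p ^ μ ∣ n → ∀ r, 1 ≤ r → q ^ r ≠ p ^ μ - 1 := by
  by_cases h2 : 2 ∣ n
  · refine ⟨2, Nat.prime_two, h2, fun q hq hqn μ hμ hμn r hr => ?_⟩
    rcases Nat.lt_or_ge 1 μ with h1 | h1
    · exact h q μ r hq hqn h1 hμn hr
    · have : μ = 1 := by omega
      subst this
      have h3 : 1 < q ^ r := Nat.one_lt_pow (by omega) hq.one_lt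
      omega
  · obtain ⟨p, hp, hpn⟩ := Nat.exists_prime_and_dvd hn
    refine ⟨p, hp, hpn, fun q hq hqn μ hμ hμn r hr he => ?_⟩
    have hno : Odd n := Nat.odd_iff.2 (by omega)
    have hqo : Odd q := hno.of_dvd_nat hqn
    have hpo : Odd (p ^ μ) := hno.of_dvd_nat hμn
    have h1 : Odd (q ^ r) := hqo.pow
    have h2 : 1 ≤ p ^ μ := Nat.one_le_pow _ _ hp.pos
    rw [he] at h1
    obtain ⟨a, ha⟩ := hpo
    obtain ⟨b, hb⟩ := h1
    omega

section

variable {G : Type} [Group G]

theorem DD_le {A K L : Subgroup G} {m1 m2 : ℕ} (h1 : DD A m1 ≤ K) (h2 : NR K ≤ L)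
    (h3 : DD L m2 = ⊥) : DD A (m1 + (1 + m2)) = ⊥ := by
  obtain ⟨mono, -, -, -, add⟩ := x_MON G
  rw [add, add, eq_bot_iff, ← h3]
  apply mono
  have h4 : DD (DD A m1) 1 = NR (DD A m1) := rfl
  have h5 : DD K 1 = NR K := rfl
  rw [h4]
  have h6 := mono _ _ h1 1
  rw [h5] at h6
  exact h6.trans h2

/-- heights and quotients -/
theorem DD_quot {F : Type} [Group F] [Finite F] (K : Subgroup F) [K.Normal] {m : ℕ}
    (h : DD (⊤ : Subgroup (F ⧸ K)) m = ⊥) : DD (⊤ : Subgroup F) m ≤ K := by
  have h1 := x_MAPS F (F ⧸ K) (QuotientGroup.mk' K) (fun x => isOfFinOrder_of_finite x) ⊤ m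
  have h2 : (⊤ : Subgroup F).map (QuotientGroup.mk' K) = ⊤ := by
    rw [← MonoidHom.range_eq_map]
    exact MonoidHom.range_eq_top.2 (QuotientGroup.mk'_surjective K)
  rw [h2, h] at h1
  intro x hx
  have h3 : QuotientGroup.mk' K x ∈ (DD (⊤ : Subgroup F) m).map (QuotientGroup.mk' K) :=
    ⟨x, hx, rfl⟩
  rw [h1, Subgroup.mem_bot] at h3
  exact (QuotientGroup.eq_one_iff x).1 h3

/-- heights and subgroups -/
theorem DD_sub (L : Subgroup G) {m : ℕ} (h : DD (⊤ : Subgroup L) m = ⊥) : DD L m = ⊥ := by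
  have h1 := x_MAPI L G L.subtype L.subtype_injective ⊤ m
  rw [h, Subgroup.map_bot, ← MonoidHom.range_eq_map, Subgroup.range_subtype] at h1
  exact h1.symm

end

/-- the finite soluble groups of exponent `n` have bounded height -/
theorem height : ∀ n : ℕ, 1 ≤ n → NonEx n → ∃ m : ℕ, ∀ (F : Type) [Group F], Finite F →
    Group.IsSolvable F → (∀ x : F, x ^ n = 1) → DD (⊤ : Subgroup F) m = ⊥ := by
  intro n
  induction n using Nat.strong_induction_on with
  | _ n ih =>
    intro hn hE
    rcases Nat.lt_or_ge 1 n with h1 | h1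
    swap
    · have hn1 : n = 1 := by omega
      refine ⟨0, fun F _ _ _ hF => ?_⟩
      rw [eq_bot_iff]
      intro x _
      have := hF x
      rw [hn1, pow_one] at this
      exact Subgroup.mem_bot.2 this
    -- a prime divisor
    have hn0 : n ≠ 0 := by omega
    obtain ⟨p, hp, hpn, hPE⟩ := hE.choose (by omega)
    set α := n.factorization p with hα
    have hα1 : 1 ≤ α := (hp.dvd_iff_one_le_factorization hn0).1 hpn
    set m' := n / p ^ α with hm'
    have hnm : p ^ α * m' = n := Nat.mul_div_cancel' (Nat.ordProj_dvd n p)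
    have hpm : ¬ p ∣ m' := Nat.not_dvd_ordCompl hp hn0
    have hm0 : m' ≠ 0 := by
      rintro h
      rw [h, mul_zero] at hnm
      omega
    have hcop : Nat.Coprime p m' := (Nat.Prime.coprime_iff_not_dvd hp).2 hpm
    have hcop' : Nat.Coprime (p ^ α) m' := Nat.Coprime.pow_left _ hcop
    have hpow : p ^ α = p ^ (α - 1) * p := by
      rw [← pow_succ, Nat.sub_add_cancel hα1]
    have hp1 : 1 ≤ p ^ (α - 1) := Nat.one_le_pow _ _ hp.pos
    -- the two smaller exponents
    obtain ⟨m1, hm1⟩ := ih (p ^ (α - 1) * m') (by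
      have : p ^ (α - 1) * m' * 1 < p ^ (α - 1) * m' * p :=
        Nat.mul_lt_mul_of_pos_left hp.one_lt (Nat.mul_pos hp1 (Nat.pos_of_ne_zero hm0))
      calc p ^ (α - 1) * m' = p ^ (α - 1) * m' * 1 := (mul_one _).symm
        _ < p ^ (α - 1) * m' * p := this
        _ = n := by rw [← hnm, hpow]; ring) (Nat.mul_pos hp1 (Nat.pos_of_ne_zero hm0))
      (hE.of_dvd (by
        rw [← hnm, hpow]
        exact ⟨p, by ring⟩))
    obtain ⟨m2, hm2⟩ := ih m' (by
      have h2 : 1 < p ^ α := Nat.one_lt_pow (by omega) hp.one_lt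
      calc m' = 1 * m' := (one_mul _).symm
        _ < p ^ α * m' := Nat.mul_lt_mul_of_pos_right h2 (Nat.pos_of_ne_zero hm0)
        _ = n := hnm) (Nat.pos_of_ne_zero hm0) (hE.of_dvd (by rw [← hnm]; exact dvd_mul_left _ _))
    refine ⟨m1 + (1 + m2), fun F _ hFf hFs hF => ?_⟩
    have hexp : ∀ x : F, x ^ (p ^ α * m') = 1 := by rw [hnm]; exact hF
    have hexp' : ∀ x : F, x ^ (m' * p ^ α) = 1 := by rw [mul_comm]; exact hexp
    let A : Subgroup F := Rad m' F
    let B : Subgroup F := (Rad (p ^ α) (F ⧸ A)).comap (QuotientGroup.mk' A)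
    have hA : A.Normal := rad_normal m'
    have hB : B.Normal := inferInstance
    have hAB : ∀ x ∈ B, x ^ p ^ α ∈ A := by
      intro x hx
      have h2 : (x : F ⧸ A) ^ p ^ α = 1 := hx.1
      rw [← QuotientGroup.mk_pow, QuotientGroup.eq_one_iff] at h2
      exact h2
    -- the theorem of Hall and Higman
    have hhh : ∀ x : F, x ^ (p ^ (α - 1) * m') ∈ B := by
      intro x
      have hx : (x ^ m') ^ p ^ α = 1 := by rw [← pow_mul, hexp']
      obtain ⟨A', B', hA', hB', hA2, hB2, hz⟩ := hhBG hp hpm hm0 hα1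
        (fun q hq hqm μ hμ hμα r hr => hPE q hq (hqm.trans (by
          rw [← hnm]; exact dvd_mul_left _ _)) μ hμ ((pow_dvd_pow p hμα).trans (by
            rw [← hnm]; exact dvd_mul_right _ _)) r hr) hexp hFs hx
      rw [← pow_mul, mul_comm m'] at hz
      have hAn : A'.Normal := ⟨fun a ha g => hA' g trivial a ha⟩
      have hBn : B'.Normal := ⟨fun a ha g => hB' g trivial a ha⟩
      have hAA : A' ≤ A := le_rad hcop'.symm hexp' A' hA2
      have hBB : B'.map (QuotientGroup.mk' A) ≤ Rad (p ^ α) (F ⧸ A) := by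
        have : (B'.map (QuotientGroup.mk' A)).Normal :=
          Subgroup.Normal.map hBn _ (QuotientGroup.mk'_surjective A)
        refine le_rad hcop' (exp_quot hexp A) _ ?_
        rintro _ ⟨y, hy, rfl⟩
        rw [← map_pow]
        exact (QuotientGroup.eq_one_iff _).2 (hAA (hB2 y hy))
      exact hBB ⟨_, hz, rfl⟩
    -- the quotient by `B`
    have h5 : DD (⊤ : Subgroup (F ⧸ B)) m1 = ⊥ := by
      refine hm1 (F ⧸ B) (Finite.of_surjective _ (QuotientGroup.mk'_surjective B))
        (Group.isSolvable_of_surjective (QuotientGroup.mk'_surjective B)) ?_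
      intro y
      obtain ⟨x, rfl⟩ := QuotientGroup.mk_surjective y
      rw [← QuotientGroup.mk_pow]
      exact (QuotientGroup.eq_one_iff _).2 (hhh x)
    -- the subgroup `A`
    have h6 : DD (⊤ : Subgroup A) m2 = ⊥ := by
      refine hm2 A inferInstance (Group.isSolvable_of_isSolvable_injective A.subtype_injective) ?_
      intro x
      exact Subtype.ext (by simpa using x.2.1)
    refine DD_le (DD_quot B h5) ?_ (DD_sub A h6)
    -- the factor `B / A`
    unfold NR
    rw [Subgroup.closure_le]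
    rintro g ⟨x, hx, y, hy, a, b, hab, hxa, hyb, rfl⟩
    have key : ∀ (w : F) (c : ℕ), w ∈ B → w ^ c = 1 → ¬ p ∣ c → w ∈ A := by
      intro w c hw hwc hpc
      rw [← QuotientGroup.eq_one_iff]
      refine eq_one_of_coprime (Nat.Coprime.pow_left α ((Nat.Prime.coprime_iff_not_dvd hp).2 hpc))
        ?_ (by rw [← QuotientGroup.mk_pow, hwc]; rfl)
      rw [← QuotientGroup.mk_pow]
      exact (QuotientGroup.eq_one_iff _).2 (hAB w hw)
    by_cases hpa : p ∣ a
    · have hpb : ¬ p ∣ b := fun h => hp.one_lt.ne' (Nat.dvd_one.1 (by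
        have := Nat.dvd_gcd hpa h
        rwa [hab] at this))
      have h7 := key y b hy hyb hpb
      exact A.mul_mem (hA.conj_mem y h7 x) (A.inv_mem h7)
    · have h7 := key x a hx hxa hpa
      have h8 : x * y * x⁻¹ * y⁻¹ = x * (y * x⁻¹ * y⁻¹) := by group
      rw [h8]
      exact A.mul_mem h7 (hA.conj_mem _ (A.inv_mem h7) y)

/-- the height is at most the order -/
theorem height_card (F : Type) [Group F] [Finite F] (hs : Group.IsSolvable F) :
    DD (⊤ : Subgroup F) (Nat.card F) = ⊥ := by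
  obtain ⟨mono, anti, -, -, add⟩ := x_MON F
  obtain ⟨M, hM⟩ := x_SOLH F inferInstance hs
  have key : ∀ m : ℕ, DD (⊤ : Subgroup F) m = ⊥ ∨
      Nat.card (DD (⊤ : Subgroup F) m) + m ≤ Nat.card F := by
    intro m
    induction m with
    | zero => exact Or.inr (by simpa using Subgroup.card_le_card_group (DD (⊤ : Subgroup F) 0))
    | succ m ih =>
      by_cases h0 : DD (⊤ : Subgroup F) m = ⊥
      · left
        rw [eq_bot_iff, ← h0]
        exact anti ⊤ m
      · right
        rcases ih with ih | ih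
        · exact absurd ih h0
        have hne : DD (⊤ : Subgroup F) (m + 1) ≠ DD (⊤ : Subgroup F) m := by
          intro heq
          apply h0
          have hc : ∀ j : ℕ, DD (⊤ : Subgroup F) (m + j) = DD (⊤ : Subgroup F) m := by
            intro j
            induction j with
            | zero => rfl
            | succ j ihj =>
              have h1 : DD (⊤ : Subgroup F) (m + (j + 1)) = NR (DD (⊤ : Subgroup F) (m + j)) := rfl
              rw [h1, ihj]
              exact heq
          have h3 : ∀ k : ℕ, DD (⊥ : Subgroup F) k = ⊥ := by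
            intro k
            induction k with
            | zero => rfl
            | succ k ihk => exact le_bot_iff.1 ((anti ⊥ k).trans ihk.le)
          calc DD (⊤ : Subgroup F) m = DD ⊤ (m + M) := (hc M).symm
            _ = DD ⊤ (M + m) := by rw [Nat.add_comm]
            _ = DD (DD ⊤ M) m := add _ _ _
            _ = ⊥ := by rw [hM, h3]
        have hlt : DD (⊤ : Subgroup F) (m + 1) < DD (⊤ : Subgroup F) m :=
          lt_of_le_of_ne (anti ⊤ m) hne
        have h4 : Nat.card (DD (⊤ : Subgroup F) (m + 1)) < Nat.card (DD (⊤ : Subgroup F) m) := by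
          by_contra hcon
          push Not at hcon
          exact hne (Subgroup.eq_of_le_of_card_ge hlt.le hcon)
        omega
  rcases key (Nat.card F) with h | h
  · exact h
  · have : 0 < Nat.card (DD (⊤ : Subgroup F) (Nat.card F)) := Nat.card_pos
    omega

/-- larger heights -/
theorem DD_bot_mono {G : Type} [Group G] {A : Subgroup G} {m k : ℕ} (h : DD A m = ⊥)
    (hmk : m ≤ k) : DD A k = ⊥ := by
  obtain ⟨-, anti, -, -, -⟩ := x_MON G
  induction k, hmk using Nat.le_induction with
  | base => exact h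
  | succ k _ ih => exact le_bot_iff.1 ((anti A k).trans ih.le)

end Pool.Agent.Q133.BT
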