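import Mathlib
import Pool.Agent.Q133.BT.Height

set_option autoImplicit false

/-!
# Groups whose three-generator subgroups are finite and soluble: the normal series
-/

namespace Pool.Agent.Q133.BT

open Pool.Agent.H32BU Pool.Agent.W629 Pool.Agent.TH69.Od Pool.Agent.TH69.Og

universe u

/-- the prime powers used in the series -/
noncomputable def qq (n i : ℕ) : ℕ :=
  qp (n.primeFactors.toList.getD (i % n.primeFactors.card) 2) n

theorem qq_spec (n i : ℕ) : ∃ p k : ℕ, p.Prime ∧ qq n i = p ^ k ∧ qq n i ∣ n := by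
  have hp : (n.primeFactors.toList.getD (i % n.primeFactors.card) 2).Prime := by
    by_cases h : i % n.primeFactors.card < n.primeFactors.toList.length
    · rw [List.getD_eq_getElem _ _ h]
      have := List.getElem_mem h
      exact Nat.prime_of_mem_primeFactors (Finset.mem_toList.1 this)
    · rw [List.getD_eq_default _ _ (by omega)]
      exact Nat.prime_two
  exact ⟨_, _, hp, rfl, Nat.ordProj_dvd n _⟩

theorem qq_add (n i : ℕ) : qq n (i + n.primeFactors.card) = qq n i := by
  unfold qq
  rw [Nat.add_mod_right]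

/-- the conditions on the three-generator subgroups -/
def C3 (m : ℕ) (G : Type) [Group G] : Prop :=
  ∀ a x z : G, Finite (c3 a x z) ∧ Group.IsSolvable (c3 a x z) ∧ DD (c3 a x z) m = ⊥

section

variable {G : Type} [Group G]

/-- the subgroups of the first part of the series -/
noncomputable def MM (n : ℕ) (G : Type) [Group G] : ℕ → Subgroup G
  | 0 => ⊥
  | j + 1 => Subgroup.closure (Nset (qq n j) : Set G) ⊔ MM n G j

theorem MM_normal (n : ℕ) : ∀ j, (MM n G j).Normal
  | 0 => inferInstanceAs (⊥ : Subgroup G).Normal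
  | j + 1 => by
    have h1 := (x_NS G (qq n j)).2
    have h2 := MM_normal n j
    exact Subgroup.sup_normal _ _

theorem MM_le (n j : ℕ) : MM n G j ≤ MM n G (j + 1) := le_sup_right

theorem MM_pow (n j : ℕ) : ∀ x ∈ MM n G (j + 1), x ^ qq n j ∈ MM n G j := by
  intro x hx
  obtain ⟨h1, h2⟩ := x_NS G (qq n j)
  have h3 := MM_normal (G := G) n j
  obtain ⟨a, ha, b, hb, rfl⟩ := (Subgroup.mem_sup_of_normal_left (hs := h2)).1 hx
  rw [← QuotientGroup.eq_one_iff, QuotientGroup.mk_pow, QuotientGroup.mk_mul,
    (QuotientGroup.eq_one_iff b).2 hb, mul_one, ← QuotientGroup.mk_pow, h1 a ha]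
  rfl

theorem MM_mono (n : ℕ) {i j : ℕ} (h : i ≤ j) : MM n G i ≤ MM n G j := by
  induction j, h using Nat.le_induction with
  | base => exact le_rfl
  | succ j _ ih => exact ih.trans (MM_le n j)

theorem Nset_le (n : ℕ) (p : ℕ) (hp : p.Prime) :
    (Nset (qp p n) : Set G) ⊆ MM n G n.primeFactors.card := by
  by_cases hpn : p ∈ n.primeFactors
  · have hlen : n.primeFactors.toList.length = n.primeFactors.card := Finset.length_toList _
    obtain ⟨j, hj, hjp⟩ := List.getElem_of_mem (Finset.mem_toList.2 hpn)
    have hq : qq n j = qp p n := by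
      unfold qq
      rw [Nat.mod_eq_of_lt (by omega), List.getD_eq_getElem _ _ hj, hjp]
    have h1 : (Nset (qp p n) : Set G) ⊆ MM n G (j + 1) := by
      rw [← hq]
      exact Subgroup.subset_closure.trans (le_sup_left (α := Subgroup G))
    exact h1.trans (MM_mono n (by omega))
  · have h0 : qp p n = 1 := by
      unfold qp
      have : n.factorization p = 0 := by
        rw [Nat.factorization_eq_zero_iff]
        by_contra hcon
        push Not at hcon
        apply hpn
        exact Nat.mem_primeFactors.2 ⟨hp, hcon.2.1, hcon.2.2⟩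
      rw [this, pow_zero]
    rw [h0]
    rintro e ⟨he, -⟩
    rw [pow_one] at he
    rw [he]
    exact one_mem _

/-- one step down (the argument of `t_STEPV`) -/
theorem step {n : ℕ} (hn : 1 ≤ n) {m : ℕ} (hG : ∀ x : G, x ^ n = 1) (h : C3 (m + 1) G)
    (M : Subgroup G) [hM : M.Normal]
    (hMs : ∀ p : ℕ, p.Prime → (Nset (qp p n) : Set G) ⊆ M) : C3 m (G ⧸ M) := by
  have htor : ∀ x : G, IsOfFinOrder x := fun x => isOfFinOrder_iff_pow_eq_one.2 ⟨n, by omega, hG x⟩
  -- two-generator subgroups
  have htwo : ∀ a x : G, DD (c2 a x) m ≤ M := by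
    intro a x e he
    apply mem_of_parts M n hn e
    intro p hp
    apply hMs p hp
    have hpe : (e ^ (n / qp p n)) ^ qp p n = 1 := by
      rw [← pow_mul, show n / qp p n * qp p n = n from Nat.div_mul_cancel (Nat.ordProj_dvd n p),
        hG]
    refine ⟨hpe, ?_⟩
    intro y hy
    obtain ⟨hf, hs, hd⟩ := h a x y
    have hle : c2 a x ≤ c3 a x y := by
      unfold c2 c3
      apply Subgroup.closure_mono
      intro t ht
      simp only [Set.mem_insert_iff, Set.mem_singleton_iff] at ht ⊢
      tauto
    have hyin : y ∈ c3 a x y := Subgroup.subset_closure (by simp)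
    exact x_COPC G (c3 a x y) hf n hn (fun t _ => hG t) m hd p hp _
      (Subgroup.pow_mem _ ((x_MON G).1 _ _ hle m he) _) hpe y hyin hy
  intro a' x' z'
  obtain ⟨a, rfl⟩ := QuotientGroup.mk_surjective a'
  obtain ⟨x, rfl⟩ := QuotientGroup.mk_surjective x'
  obtain ⟨z, rfl⟩ := QuotientGroup.mk_surjective z'
  obtain ⟨hf, hs, hd⟩ := h a x z
  have hmap : (c3 a x z).map (QuotientGroup.mk' M) =
      c3 (a : G ⧸ M) (x : G ⧸ M) (z : G ⧸ M) := map_c3 _ a x z
  rw [← hmap]
  have hsurj := (QuotientGroup.mk' M).subgroupMap_surjective (c3 a x z)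
  have hf' : Finite ((c3 a x z).map (QuotientGroup.mk' M)) := Finite.of_surjective _ hsurj
  have hs' : Group.IsSolvable ((c3 a x z).map (QuotientGroup.mk' M)) :=
    Group.isSolvable_of_surjective hsurj
  refine ⟨hf', hs', ?_⟩
  set F : Subgroup (G ⧸ M) := (c3 a x z).map (QuotientGroup.mk' M) with hF
  have h7 : DD (⊤ : Subgroup F) m = ⊥ := by
    apply x_TWO F hf' hs' m
    intro b y
    have h8 := x_MAPI F (G ⧸ M) F.subtype F.subtype_injective (c2 b y) m
    have h9 : DD ((c2 b y).map F.subtype) m = ⊥ := by
      rw [map_c2]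
      obtain ⟨b', hb'⟩ := QuotientGroup.mk_surjective (b : G ⧸ M)
      obtain ⟨y', hy'⟩ := QuotientGroup.mk_surjective (y : G ⧸ M)
      have h10 : c2 (F.subtype b) (F.subtype y) = (c2 b' y').map (QuotientGroup.mk' M) := by
        rw [map_c2]
        simp [hb', hy']
      rw [h10, ← x_MAPS G (G ⧸ M) (QuotientGroup.mk' M) htor]
      rw [eq_bot_iff]
      rintro _ ⟨w, hw, rfl⟩
      rw [Subgroup.mem_bot]
      exact (QuotientGroup.eq_one_iff w).2 (htwo b' y' hw)
    rw [h9] at h8
    exact (Subgroup.map_eq_bot_iff_of_injective _ F.subtype_injective).1 h8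
  have h11 := x_MAPI F (G ⧸ M) F.subtype F.subtype_injective ⊤ m
  rw [h7, Subgroup.map_bot, ← MonoidHom.range_eq_map, Subgroup.range_subtype] at h11
  exact h11.symm

end

/-- the group has a normal series of length `l` whose `i`-th factor has an exponent dividing
`q i` -/
def Ser (q : ℕ → ℕ) (l : ℕ) (G : Type) [Group G] : Prop :=
  ∃ N : ℕ → Subgroup G, N 0 = ⊥ ∧ N l = ⊤ ∧ ∀ i < l, (N i).Normal ∧ N i ≤ N (i + 1) ∧
    ∀ x ∈ N (i + 1), x ^ q i ∈ N i

/-- the normal series -/
theorem series {n : ℕ} (hn : 1 ≤ n) : ∀ (m : ℕ) (G : Type) [Group G], (∀ x : G, x ^ n = 1) →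
    C3 m G → Ser (qq n) (m * n.primeFactors.card) G := by
  intro m
  induction m with
  | zero =>
    intro G _ hG h
    refine ⟨fun _ => ⊤, ?_, rfl, fun i hi => absurd hi (by simp)⟩
    rw [eq_bot_iff]
    intro a _
    have h3 : c3 a a a = ⊥ := (h a a a).2.2
    have h4 : a ∈ c3 a a a := Subgroup.subset_closure (by simp)
    rwa [h3] at h4
  | succ m ih =>
    intro G _ hG h
    set k := n.primeFactors.card with hk
    have hMn := MM_normal (G := G) n k
    have h1 : C3 m (G ⧸ MM n G k) := step hn hG h (MM n G k) (fun p hp => Nset_le n p hp)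
    obtain ⟨N, h0, hl, hN⟩ := ih (G ⧸ MM n G k) (exp_quot hG _) h1
    have hcm : (N 0).comap (QuotientGroup.mk' (MM n G k)) = MM n G k := by
      rw [h0]
      exact QuotientGroup.ker_mk' _
    refine ⟨fun i => if i ≤ k then MM n G i else
      (N (i - k)).comap (QuotientGroup.mk' (MM n G k)), by simp [MM], ?_, ?_⟩
    · by_cases hle : (m + 1) * k ≤ k
      · have hmk : m * k = 0 := by
          have : (m + 1) * k = m * k + k := by ring
          omega
        have hle' : (m + 1) * k = k := by
          have : (m + 1) * k = m * k + k := by ring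
          omega
        rw [hle']
        simp only [le_refl, if_true]
        rw [hmk] at hl
        rw [← hcm, hl]
        rfl
      · simp only [hle, if_false]
        have : (m + 1) * k - k = m * k := by
          have : (m + 1) * k = m * k + k := by ring
          omega
        rw [this, hl]
        rfl
    · intro i hi
      have hmk : (m + 1) * k = m * k + k := by ring
      rcases Nat.lt_trichotomy i k with hik | hik | hik
      · have e1 : i ≤ k := hik.le
        have e2 : i + 1 ≤ k := hik
        simp only [e1, e2, if_true]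
        exact ⟨MM_normal n i, MM_le n i, MM_pow n i⟩
      · have e1 : i ≤ k := hik.le
        have e2 : ¬ i + 1 ≤ k := by omega
        have e3 : i + 1 - k = 0 + 1 := by omega
        simp only [e1, e2, if_true, if_false, e3]
        rw [hik]
        obtain ⟨a1, a2, a3⟩ := hN 0 (by omega)
        refine ⟨hMn, ?_, ?_⟩
        · exact hcm.symm.le.trans (Subgroup.comap_mono a2)
        · intro x hx
          have h5 := a3 _ hx
          rw [h0, Subgroup.mem_bot] at h5
          have h6 : qq n k = qq n 0 := by
            have := qq_add n 0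
            rwa [zero_add] at this
          rw [h6, ← QuotientGroup.eq_one_iff, QuotientGroup.mk_pow]
          exact h5
      · have e1 : ¬ i ≤ k := by omega
        have e2 : ¬ i + 1 ≤ k := by omega
        simp only [e1, e2, if_false]
        have e3 : i + 1 - k = (i - k) + 1 := by omega
        rw [e3]
        obtain ⟨a1, a2, a3⟩ := hN (i - k) (by omega)
        refine ⟨a1.comap _, Subgroup.comap_mono a2, ?_⟩
        intro x hx
        have h5 := a3 _ hx
        have h6 : qq n i = qq n (i - k) := by
          have := qq_add n (i - k)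
          rw [← hk, Nat.sub_add_cancel hik.le] at this
          exact this
        rw [h6]
        rw [Subgroup.mem_comap, map_pow]
        exact h5

/-- three-generator subgroups are finite, and soluble if `n` has more than two prime divisors -/
def Three (n : ℕ) (G : Type u) [Group G] : Prop :=
  (∀ x y z : G, Finite (Subgroup.closure {x, y, z})) ∧
  (n.primeFactors.card ≤ 2 ∨ ∀ x y z : G, Group.IsSolvable (Subgroup.closure {x, y, z}))

theorem Three.sol {n : ℕ} (hn : 1 ≤ n) {G : Type} [Group G] (hG : ∀ x : G, x ^ n = 1)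
    (h : Three n G) (a x z : G) : Group.IsSolvable (c3 a x z) := by
  have : Finite (c3 a x z) := h.1 a x z
  rcases h.2 with h2 | h2
  · obtain ⟨p, q, i, j, hp, hq, e⟩ := two_primes n hn h2
    refine solv_of_exp (G := c3 a x z) p q i j hp hq fun w => ?_
    rw [← e]
    exact exp_sub hG _ w
  · exact h2 a x z

/-- bounded height from bounds for the height of finite groups -/
theorem C3_of {n : ℕ} (hn : 1 ≤ n) {m : ℕ} (hm : ∀ (F : Type) [Group F], Finite F →
    Group.IsSolvable F → (∀ x : F, x ^ n = 1) → DD (⊤ : Subgroup F) m = ⊥) {G : Type} [Group G]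
    (hG : ∀ x : G, x ^ n = 1) (h : Three n G) : C3 m G := by
  intro a x z
  have h1 : Finite (c3 a x z) := h.1 a x z
  have h2 := h.sol hn hG a x z
  exact ⟨h1, h2, DD_sub _ (hm (c3 a x z) h1 h2 (exp_sub hG _))⟩

/-- bounded height from bounded orders -/
theorem C3_of_card {n c : ℕ} (hn : 1 ≤ n) {G : Type} [Group G] (hG : ∀ x : G, x ^ n = 1)
    (h : Three n G) (hc : ∀ x y z : G, Nat.card (Subgroup.closure {x, y, z}) ≤ c) : C3 c G := by
  intro a x z
  have h1 : Finite (c3 a x z) := h.1 a x z
  have h2 := h.sol hn hG a x z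
  exact ⟨h1, h2, DD_bot_mono (DD_sub _ (height_card (c3 a x z) h2)) (hc a x z)⟩

/-- the condition on three-generator subgroups, transferred -/
theorem Three.transfer {n : ℕ} {Q : Type} {G : Type u} [Group Q] [Group G] (f : Q →* G)
    (hf : Function.Injective f) (h : Three n G) : Three n Q := by
  have e : ∀ x y z : Q, (Subgroup.closure {x, y, z}).map f =
      Subgroup.closure {f x, f y, f z} := by
    intro x y z
    rw [MonoidHom.map_closure]
    congr 1
    simp [Set.image_insert_eq]
  refine ⟨fun x y z => ?_, h.2.imp id fun h2 x y z => ?_⟩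
  · have h3 := h.1 (f x) (f y) (f z)
    rw [← e] at h3
    exact Finite.of_equiv _ ((Subgroup.closure {x, y, z}).equivMapOfInjective f hf).symm.toEquiv
  · have h3 := h2 (f x) (f y) (f z)
    rw [← e] at h3
    have eq := (Subgroup.closure {x, y, z}).equivMapOfInjective f hf
    exact Group.isSolvable_of_isSolvable_injective
      (f := (eq : Subgroup.closure {x, y, z} →* (Subgroup.closure {x, y, z}).map f)) eq.injective

theorem card_transfer {c : ℕ} {Q : Type} {G : Type u} [Group Q] [Group G] (f : Q →* G)
    (hf : Function.Injective f) (h : ∀ x y z : G, Nat.card (Subgroup.closure {x, y, z}) ≤ c)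
    (x y z : Q) : Nat.card (Subgroup.closure {x, y, z}) ≤ c := by
  have e : (Subgroup.closure {x, y, z}).map f = Subgroup.closure {f x, f y, f z} := by
    rw [MonoidHom.map_closure]
    congr 1
    simp [Set.image_insert_eq]
  have h3 := h (f x) (f y) (f z)
  rw [← e] at h3
  rwa [Nat.card_congr ((Subgroup.closure {x, y, z}).equivMapOfInjective f hf).toEquiv]

theorem locfin_qp' {n : ℕ} (hq : ∀ p k : ℕ, p.Prime → p ^ k ∣ n → 4 < p ^ k → InL.{u} (p ^ k))
    (p : ℕ) (hp : p.Prime) : LocFin (qp p n) := by
  unfold qp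
  by_cases h4 : 4 < p ^ n.factorization p
  · exact (inL_iff x_LFD _).1 (hq p _ hp (Nat.ordProj_dvd n p) h4)
  · exact small_pp x_LFD x_L34 p _ hp h4

/-- local finiteness -/
theorem lf_of {n : ℕ} (hn : 1 ≤ n)
    (hq : ∀ p k : ℕ, p.Prime → p ^ k ∣ n → 4 < p ^ k → InL.{u} (p ^ k)) (G : Type u) [Group G]
    (hG : ∀ x : G, x ^ n = 1)
    (h : ∀ (Q : Type) [Group Q] (f : Q →* G), Function.Injective f → ∃ m, C3 m Q)
    (S : Set G) (hS : S.Finite) : Finite (Subgroup.closure S) := by
  refine finite_closure_u S hS fun Q _ f hf => ?_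
  obtain ⟨m, hm⟩ := h Q f hf
  exact x_IND n hn (fun p hp => locfin_qp' hq p hp) m Q
    (fun x => hf (by rw [map_pow, map_one]; exact hG _)) hm

end Pool.Agent.Q133.BT
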